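import Mathlib

/-!
# Heegaard splittings of homology spheres, and finite type invariants

`Σ_{g,1}` is the compact oriented surface of genus `g` with one boundary component.  Its fundamental
group is free on `x_0, y_0, …, x_{g-1}, y_{g-1}`, and the boundary curve is
`[x_0, y_0] ⋯ [x_{g-1}, y_{g-1}]`.  By the theorem of Dehn, Nielsen and Baer the mapping class group
of `Σ_{g,1}` is the group of the automorphisms of the free group which fix the boundary curve.
-/

set_option autoImplicit false

namespace Pool.Agent.N518.TG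

/-- The fundamental group of `Σ_{g,1}`; the generators are `x_i = (i, false)`, `y_i = (i, true)`. -/
abbrev Surf (g : ℕ) : Type := FreeGroup (Fin g × Bool)

/-- The generator `x_i`. -/
def xx {g : ℕ} (i : Fin g) : Surf g := FreeGroup.of (i, false)

/-- The generator `y_i`. -/
def yy {g : ℕ} (i : Fin g) : Surf g := FreeGroup.of (i, true)

/-- The boundary curve `[x_0, y_0] ⋯ [x_{g-1}, y_{g-1}]`. -/
def bdry (g : ℕ) : Surf g := 
  (List.ofFn fun i : Fin g => xx i * yy i * (xx i)⁻¹ * (yy i)⁻¹).prod

/-- The mapping class group of `Σ_{g,1}`. -/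
def Mod (g : ℕ) : Subgroup (MulAut (Surf g)) where
  carrier := {φ | φ (bdry g) = bdry g}
  mul_mem' := by
    intro φ ψ h h'
    show φ (ψ _) = _
    rw [show ψ (bdry g) = bdry g from h', show φ (bdry g) = bdry g from h]
  one_mem' := rfl
  inv_mem' := by
    intro φ h
    show φ⁻¹ _ = _
    have h1 : φ (bdry g) = bdry g := h
    calc φ⁻¹ (bdry g) = φ⁻¹ (φ (bdry g)) := by rw [h1]
      _ = bdry g := by simp

/-- The Torelli group of `Σ_{g,1}`: the mapping classes which act trivially on the homology of the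
surface. -/
def Torelli (g : ℕ) : Subgroup (MulAut (Surf g)) where
  carrier := {φ | φ ∈ Mod g ∧ ∀ z, φ z * z⁻¹ ∈ commutator (Surf g)}
  mul_mem' := by
    rintro φ ψ ⟨h1, h2⟩ ⟨h1', h2'⟩
    refine ⟨mul_mem h1 h1', fun z => ?_⟩
    have e : (φ * ψ) z * z⁻¹ = (φ (ψ z) * (ψ z)⁻¹) * (ψ z * z⁻¹) := by
      rw [MulAut.mul_apply]; group
    rw [e]
    exact mul_mem (h2 _) (h2' _)
  one_mem' := ⟨one_mem _, fun z => by simp⟩
  inv_mem' := by
    rintro φ ⟨h1, h2⟩
    refine ⟨inv_mem h1, fun z => ?_⟩
    have h3 := inv_mem (h2 (φ⁻¹ z))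
    have e : φ (φ⁻¹ z) = z := by simp
    rw [e] at h3
    have : φ⁻¹ z * z⁻¹ = (z * (φ⁻¹ z)⁻¹)⁻¹ := by group
    rw [this]
    exact h3

/-- The mapping classes which extend to the handlebody in which the curves `x_i` bound discs. -/
def ExtX (g : ℕ) : Set (MulAut (Surf g)) :=
  {φ | φ ∈ Mod g ∧ (Subgroup.normalClosure (Set.range (xx (g := g)))).map φ.toMonoidHom =
    Subgroup.normalClosure (Set.range xx)}

/-- The mapping classes which extend to the handlebody in which the curves `y_i` bound discs. -/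
def ExtY (g : ℕ) : Set (MulAut (Surf g)) :=
  {φ | φ ∈ Mod g ∧ (Subgroup.normalClosure (Set.range (yy (g := g)))).map φ.toMonoidHom =
    Subgroup.normalClosure (Set.range yy)}

/-- The inclusion of the surface of genus `g` into the surface of genus `g + 1`. -/
def incl (g : ℕ) : Surf g →* Surf (g + 1) := FreeGroup.map fun p => (p.1.castSucc, p.2)

/-- `φ'` is the stabilisation of `φ`: the extension by the identity to one more handle. -/
def Stab {g : ℕ} (φ : MulAut (Surf g)) (φ' : MulAut (Surf (g + 1))) : Prop :=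
  (∀ z, φ' (incl g z) = incl g (φ z)) ∧ φ' (xx (Fin.last g)) = xx (Fin.last g) ∧
    φ' (yy (Fin.last g)) = yy (Fin.last g)

/-- Heegaard splittings: `⟨g, φ⟩`, with `φ` in the mapping class group of `Σ_{g,1}`, stands for the closed
oriented 3-manifold `M(φ)` which is the union of the handlebody in which the curves `x_i` bound discs and
of the handlebody in which the curves `φ(y_i)` bound discs.  So `M(1)` is the 3-sphere. -/
abbrev Heegaard : Type := Σ g : ℕ, MulAut (Surf g)

/-- Two Heegaard splittings differ by one move: by mapping classes which extend to the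
handlebodies, or by a stabilisation. -/
inductive Step : Heegaard → Heegaard → Prop
  | ext (g : ℕ) (φ a b : MulAut (Surf g)) : φ ∈ Mod g → a ∈ ExtX g → b ∈ ExtY g →
      Step ⟨g, φ⟩ ⟨g, a * φ * b⟩
  | stab (g : ℕ) (φ : MulAut (Surf g)) (φ' : MulAut (Surf (g + 1))) : φ ∈ Mod g → Stab φ φ' →
      Step ⟨g, φ⟩ ⟨g + 1, φ'⟩

/-- The manifolds are homeomorphic, by an orientation preserving homeomorphism (theorem of
Reidemeister and Singer). -/
def Homeo : Heegaard → Heegaard → Prop := Relation.EqvGen Step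

/-- An invariant of integral homology 3-spheres (every integral homology 3-sphere is `M(φ)` for some
`φ` in a Torelli group). -/
def IsInvariant {A : Type} (v : Heegaard → A) : Prop :=
  ∀ P Q : Heegaard, P.2 ∈ Torelli P.1 → Homeo P Q → v P = v Q

/-- `v` is of finite type, of degree at most `n` (Goussarov, Habiro; Garoufalidis and Levine): for any
`n + 1` elements `ψ_0, …, ψ_n` of a Torelli group the alternating sum of the values of `v` at the
manifolds `M(φ ψ_{i_1} ⋯ ψ_{i_r})`, for all subsets `{i_1 < ⋯ < i_r}` of `{0, …, n}`, is zero. -/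
def FiniteType {A : Type} [AddCommGroup A] (n : ℕ) (v : Heegaard → A) : Prop :=
  ∀ (g : ℕ) (φ : MulAut (Surf g)) (ψ : Fin (n + 1) → MulAut (Surf g)), φ ∈ Torelli g →
    (∀ i, ψ i ∈ Torelli g) →
    ∑ s : Fin (n + 1) → Bool, (∏ i, if s i then (-1 : ℤ) else 1) •
      v ⟨g, φ * (List.ofFn fun i => if s i then ψ i else 1).prod⟩ = 0

/-- The Heegaard splitting `M(u₀ w₁^{q₁} u₁ w₂^{q₂} u₂ ⋯ w_k^{q_k} u_k)`. -/
def powers {g k : ℕ} (u₀ : MulAut (Surf g)) (w u : Fin k → MulAut (Surf g)) (q : Fin k → ℤ) :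
    Heegaard :=
  ⟨g, u₀ * (List.ofFn fun j => w j ^ q j * u j).prod⟩

/-- A family of homology spheres `M(u₀ w₁^{q₁} u₁ ⋯ w_k^{q_k} u_k)`, `q ∈ ℤ^k`, with `w_j` in the Torelli
group and `u_j` in the mapping class group of `Σ_{g,1}`; the product for `q = 0` is in the Torelli
group. -/
structure Family : Type where
  g : ℕ
  k : ℕ
  u₀ : MulAut (Surf g)
  w : Fin k → MulAut (Surf g)
  u : Fin k → MulAut (Surf g)
  u₀_mem : u₀ ∈ Mod g
  w_mem : ∀ j, w j ∈ Torelli g
  u_mem : ∀ j, u j ∈ Mod g
  base : u₀ * (List.ofFn u).prod ∈ Torelli g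

/-- The member of the family with the exponents `q`. -/
def Family.M (F : Family) (q : Fin F.k → ℤ) : Heegaard := powers F.u₀ F.w F.u q

end Pool.Agent.N518.TG
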