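import Pool.Agent.N518.VL.One

/-!
# Classes of invariants which are polynomial along families
-/

set_option autoImplicit false

namespace Pool.Agent.N518.TG

open Pool.Agent.Y466.FT (PD exists_poly count_zeros)
open Pool.Agent.N518.VL (TorsionFree functional exists_indep pt)

/-- A class of invariants with an order. -/
structure Theory (X : Type) where
  Is : ∀ {A : Type} [AddCommGroup A], ℕ → (X → A) → Prop
  mono : ∀ {A : Type} [AddCommGroup A] {m n : ℕ} {v : X → A}, m ≤ n → Is m v → Is n v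
  comp : ∀ {A B : Type} [AddCommGroup A] [AddCommGroup B] {n : ℕ} {v : X → A}, Is n v →
    ∀ f : A →+ B, Is n (fun x => f (v x))
  sum : ∀ {ι A : Type} [AddCommGroup A] {n : ℕ} {s : Finset ι} {v : ι → X → A},
    (∀ i ∈ s, Is n (v i)) → Is n (fun x => ∑ i ∈ s, v i x)

section
variable {X : Type} (𝒯 : Theory X)

/-- Separated by a rational valued invariant of order at most `n`. -/
def Sep (n : ℕ) (x y : X) : Prop := ∃ v : X → ℚ, 𝒯.Is n v ∧ v x ≠ v y

theorem Sep.mono {m n : ℕ} (h : m ≤ n) {x y : X} (hs : Sep 𝒯 m x y) : Sep 𝒯 n x y := by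
  obtain ⟨v, h1, h2⟩ := hs
  exact ⟨v, 𝒯.mono h h1, h2⟩

theorem not_sep {n : ℕ} {x y : X} :
    ¬ Sep 𝒯 n x y ↔ ∀ v : X → ℚ, 𝒯.Is n v → v x = v y := by
  unfold Sep
  push Not
  rfl

/-- Families on which all invariants are polynomial functions. -/
def Fam {k : ℕ} (D : (Fin k → ℤ) → X) : Prop :=
  ∀ {A : Type} [AddCommGroup A] (n : ℕ) (v : X → A), 𝒯.Is n v → PD (n + 1) (fun q => v (D q))

section
variable {𝒯} {k k' : ℕ} {D : (Fin k → ℤ) → X} {D' : (Fin k' → ℤ) → X}

theorem poly_pair (hD : Fam 𝒯 D) (hD' : Fam 𝒯 D') {n : ℕ} {v : X → ℚ} (hv : 𝒯.Is n v) :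
    ∃ R : MvPolynomial (Fin k ⊕ Fin k') ℚ, R.totalDegree ≤ n ∧
      ∀ q q', MvPolynomial.eval (pt q q') R = v (D q) - v (D' q') := by
  obtain ⟨P, hP, hP'⟩ := exists_poly k n _ (hD n v hv)
  obtain ⟨Q, hQ, hQ'⟩ := exists_poly k' n _ (hD' n v hv)
  refine ⟨MvPolynomial.rename Sum.inl P - MvPolynomial.rename Sum.inr Q, ?_, fun q q' => ?_⟩
  · refine (MvPolynomial.totalDegree_sub _ _).trans (max_le ?_ ?_)
    · exact (MvPolynomial.totalDegree_rename_le _ _).trans hP
    · exact (MvPolynomial.totalDegree_rename_le _ _).trans hQ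
  · rw [map_sub, MvPolynomial.eval_rename, MvPolynomial.eval_rename, hP', hQ']
    rfl

theorem fin_pair (hD : Fam 𝒯 D) (hD' : Fam 𝒯 D') :
    ∃ T : Finset (X → ℚ), (∀ v ∈ T, ∃ n, 𝒯.Is n v) ∧
      ∀ q q', (∀ v ∈ T, v (D q) = v (D' q')) →
        ∀ n (v : X → ℚ), 𝒯.Is n v → v (D q) = v (D' q') := by
  classical
  set S : Set (MvPolynomial (Fin k ⊕ Fin k') ℚ) := {R | ∃ v : X → ℚ, (∃ n, 𝒯.Is n v) ∧
    ∀ q q', MvPolynomial.eval (pt q q') R = v (D q) - v (D' q')} with hS
  have hfg : (Submodule.span (MvPolynomial (Fin k ⊕ Fin k') ℚ) S).FG := IsNoetherian.noetherian _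
  obtain ⟨T, hT, hT'⟩ := (Submodule.fg_span_iff_fg_span_finset_subset _).1 hfg
  have h1 : ∀ t ∈ T, ∃ v : X → ℚ, (∃ n, 𝒯.Is n v) ∧
      ∀ q q', MvPolynomial.eval (pt q q') t = v (D q) - v (D' q') := fun t ht => hT ht
  choose! f hf2 hf3 using h1
  refine ⟨T.image f, fun v hv => ?_, fun q q' h n v hn => ?_⟩
  · obtain ⟨t, ht, rfl⟩ := Finset.mem_image.1 hv
    exact hf2 t ht
  · obtain ⟨R, _, hR⟩ := poly_pair hD hD' hn
    have h2 : Submodule.span (MvPolynomial (Fin k ⊕ Fin k') ℚ)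
        (T : Set (MvPolynomial (Fin k ⊕ Fin k') ℚ)) ≤
        RingHom.ker (MvPolynomial.eval (pt q q')) := Submodule.span_le.2 fun t ht => by
      have h3 := hf3 t ht q q'
      rw [h (f t) (Finset.mem_image_of_mem f ht), sub_self] at h3
      exact h3
    have h5 : R ∈ Submodule.span (MvPolynomial (Fin k ⊕ Fin k') ℚ) S :=
      Submodule.subset_span ⟨v, ⟨n, hn⟩, hR⟩
    rw [hT'] at h5
    have h6 : MvPolynomial.eval (pt q q') R = 0 := h2 h5
    rw [hR q q'] at h6
    exact sub_eq_zero.1 h6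

end

theorem combine (T : Finset (X → ℚ)) (hT : ∀ v ∈ T, ∃ n, 𝒯.Is n v) :
    ∃ (d : ℕ) (V : X → ℝ), 𝒯.Is d V ∧ (∀ v ∈ T, 𝒯.Is d v) ∧
      ∀ D E, V D = V E ↔ ∀ v ∈ T, v D = v E := by
  classical
  choose! N hN using hT
  obtain ⟨c, hc⟩ := exists_indep (Fintype.card T)
  set e := Fintype.equivFin T with he
  have hc' : LinearIndependent ℚ (fun v : T => c (e v)) := hc.comp e e.injective
  have hd : ∀ v ∈ T, 𝒯.Is (T.sup N) v := fun v hv => 𝒯.mono (Finset.le_sup hv) (hN v hv)
  refine ⟨T.sup N, fun D => ∑ v : T, c (e v) * (v.1 D : ℝ), ?_, hd, fun D E => ⟨fun h => ?_,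
    fun h => ?_⟩⟩
  · refine 𝒯.sum fun v _ => ?_
    exact 𝒯.comp (hd v.1 v.2) ((AddMonoidHom.mulLeft (c (e v))).comp (Rat.castHom ℝ).toAddMonoidHom)
  · have h2 : ∑ v : T, (v.1 D - v.1 E) • c (e v) = 0 := by
      rw [← sub_eq_zero, ← Finset.sum_sub_distrib] at h
      rw [← h]
      refine Finset.sum_congr rfl fun v _ => ?_
      rw [Rat.smul_def]
      push_cast
      ring
    have h3 := Fintype.linearIndependent_iff.1 hc' (fun v => v.1 D - v.1 E) h2
    intro v hv
    exact sub_eq_zero.1 (h3 ⟨v, hv⟩)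
  · refine Finset.sum_congr rfl fun v _ => ?_
    rw [h v.1 v.2]

theorem torsionFree_of_rat {D E : X} (h : ∀ n (v : X → ℚ), 𝒯.Is n v → v D = v E) {A : Type}
    [AddCommGroup A] (hA : TorsionFree A) (n : ℕ) (v : X → A) (hn : 𝒯.Is n v) : v D = v E := by
  by_contra h1
  obtain ⟨f, hf⟩ := functional hA (sub_ne_zero.2 h1)
  refine hf ?_
  rw [map_sub, sub_eq_zero]
  exact h n (fun D => f (v D)) (𝒯.comp hn f)

theorem torsionFree_real : TorsionFree ℝ := by
  intro n a hn h
  rw [nsmul_eq_mul] at h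
  rcases mul_eq_zero.1 h with h | h
  · exact absurd (Nat.cast_eq_zero.1 h) hn
  · exact h

/-- The polynomial is not zero on a line. -/
theorem line_zeros {σ : Type} [Fintype σ] {R : MvPolynomial σ ℚ} {n : ℕ} (hR : R.totalDegree ≤ n)
    (a b : σ → ℤ) (t₀ : ℤ)
    (h₀ : MvPolynomial.eval (fun i => ((a i + t₀ * b i : ℤ) : ℚ)) R ≠ 0) :
    {t : ℤ | MvPolynomial.eval (fun i => ((a i + t * b i : ℤ) : ℚ)) R = 0}.Finite ∧
      {t : ℤ | MvPolynomial.eval (fun i => ((a i + t * b i : ℤ) : ℚ)) R = 0}.ncard ≤ n := by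
  classical
  set p : Polynomial ℚ := MvPolynomial.aeval
    (fun i => Polynomial.C (a i : ℚ) + Polynomial.X * Polynomial.C (b i : ℚ)) R with hp
  have hev : ∀ t : ℤ, p.eval (t : ℚ) = MvPolynomial.eval (fun i => ((a i + t * b i : ℤ) : ℚ)) R := by
    intro t
    rw [hp, MvPolynomial.aeval_def, MvPolynomial.polynomial_eval_eval₂, MvPolynomial.eval_eq']
    rw [MvPolynomial.eval₂_eq']
    refine Finset.sum_congr rfl fun d _ => ?_
    simp
  have hp0 : p ≠ 0 := by
    intro h
    apply h₀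
    rw [← hev, h, Polynomial.eval_zero]
  have hdeg : p.natDegree ≤ n := by
    have := MvPolynomial.aeval_natDegree_le R hR
      (fun i => Polynomial.C (a i : ℚ) + Polynomial.X * Polynomial.C (b i : ℚ)) (n := 1) (fun i => by
        refine (Polynomial.natDegree_add_le _ _).trans (max_le (by simp) ?_)
        refine Polynomial.natDegree_mul_le.trans ?_
        simp)
    rwa [mul_one] at this
  have hsub : {t : ℤ | MvPolynomial.eval (fun i => ((a i + t * b i : ℤ) : ℚ)) R = 0} ⊆
      (Int.cast : ℤ → ℚ) ⁻¹' (p.roots.toFinset : Set ℚ) := by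
    intro t ht
    have h1 : MvPolynomial.eval (fun i => ((a i + t * b i : ℤ) : ℚ)) R = 0 := ht
    rw [← hev] at h1
    simp only [Set.mem_preimage, Finset.mem_coe, Multiset.mem_toFinset]
    exact (Polynomial.mem_roots hp0).2 h1
  have hfin : ((Int.cast : ℤ → ℚ) ⁻¹' (p.roots.toFinset : Set ℚ)).Finite :=
    Set.Finite.preimage (Int.cast_injective.injOn) (Finset.finite_toSet _)
  refine ⟨hfin.subset hsub, (Set.ncard_le_ncard hsub hfin).trans ?_⟩
  have h2 : ((Int.cast : ℤ → ℚ) ⁻¹' (p.roots.toFinset : Set ℚ)).ncard ≤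
      (p.roots.toFinset : Set ℚ).ncard := by
    rw [← Set.ncard_image_of_injective _ (Int.cast_injective (α := ℚ))]
    exact Set.ncard_le_ncard (Set.image_preimage_subset _ _) (Finset.finite_toSet _)
  refine h2.trans ?_
  rw [Set.ncard_coe_finset]
  exact (Multiset.toFinset_card_le _).trans ((Polynomial.card_roots' p).trans hdeg)

open Finset in
/-- **One invariant** for finitely many families, with the laws of coincidence. -/
theorem one_inv {ι : Type} [Finite ι] (k : ι → ℕ) (D : ∀ i, (Fin (k i) → ℤ) → X)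
    (hD : ∀ i, Fam 𝒯 (D i)) : ∃ (d : ℕ) (V : X → ℝ), 𝒯.Is d V ∧
      (∀ i j q q', V (D i q) = V (D j q') ↔ ∀ (A : Type) [AddCommGroup A], TorsionFree A →
        ∀ (n : ℕ) (v : X → A), 𝒯.Is n v → v (D i q) = v (D j q')) ∧
      (∀ i j, ∃ P : MvPolynomial (Fin (k i) ⊕ Fin (k j)) ℚ, ∀ q q',
        V (D i q) = V (D j q') ↔
          MvPolynomial.eval (Sum.elim (fun i => (q i : ℚ)) fun i => (q' i : ℚ)) P = 0) ∧
      (∀ i j (a b : Fin (k i) → ℤ) (a' b' : Fin (k j) → ℤ),
        (∀ t : ℤ, V (D i (a + t • b)) = V (D j (a' + t • b'))) ∨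
        ({t : ℤ | V (D i (a + t • b)) = V (D j (a' + t • b'))}.Finite ∧
          {t : ℤ | V (D i (a + t • b)) = V (D j (a' + t • b'))}.ncard ≤ d)) ∧
      (∀ i j, (∀ q q', V (D i q) = V (D j q')) ∨
        ∀ (A : Fin (k i) → Finset ℤ) (B : Fin (k j) → Finset ℤ) (M : ℕ),
          (∀ l, M ≤ (A l).card) → (∀ l, M ≤ (B l).card) →
          M * #{z ∈ Fintype.piFinset A ×ˢ Fintype.piFinset B | V (D i z.1) = V (D j z.2)} ≤
            d * ((∏ l, (A l).card) * ∏ l, (B l).card)) := by
  classical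
  have : Fintype ι := Fintype.ofFinite ι
  choose T hT hT' using fun p : ι × ι => fin_pair (hD p.1) (hD p.2)
  obtain ⟨d, V, h2, h3, h4⟩ := combine 𝒯 (Finset.univ.biUnion T) (fun v hv => by
    obtain ⟨p, _, hp⟩ := Finset.mem_biUnion.1 hv
    exact hT p v hp)
  have h5 : ∀ i j q q', V (D i q) = V (D j q') →
      ∀ n (v : X → ℚ), 𝒯.Is n v → v (D i q) = v (D j q') := by
    intro i j q q' h
    refine hT' (i, j) q q' fun v hv => (h4 _ _).1 h v ?_
    exact Finset.mem_biUnion.2 ⟨(i, j), Finset.mem_univ _, hv⟩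
  have h6 : ∀ x y, ¬ Sep 𝒯 d x y → V x = V y := by
    intro x y h
    refine (h4 x y).2 fun v hv => ?_
    by_contra h7
    exact h ⟨v, h3 v hv, h7⟩
  have h8 : ∀ i j q q', V (D i q) = V (D j q') → ¬ Sep 𝒯 d (D i q) (D j q') := by
    rintro i j q q' h ⟨v, hv, hne⟩
    exact hne (h5 i j q q' h d v hv)
  refine ⟨d, V, h2, fun i j q q' => ⟨fun h A _ hA n v hv => ?_, fun h => ?_⟩, fun i j => ?_,
    fun i j a b a' b' => ?_, fun i j => ?_⟩
  · exact torsionFree_of_rat 𝒯 (h5 i j q q' h) hA n v hv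
  · exact h ℝ torsionFree_real d V h2
  · -- the locus
    have h9 : ∀ v : X → ℚ, ∃ R : MvPolynomial (Fin (k i) ⊕ Fin (k j)) ℚ, (∃ n, 𝒯.Is n v) →
        ∀ q q', MvPolynomial.eval (pt q q') R = v (D i q) - v (D j q') := by
      intro v
      by_cases hv : ∃ n, 𝒯.Is n v
      · obtain ⟨n, hn⟩ := hv
        obtain ⟨R, _, hR⟩ := poly_pair (hD i) (hD j) hn
        exact ⟨R, fun _ => hR⟩
      · exact ⟨0, fun h => absurd h hv⟩
    choose R hR using h9
    refine ⟨∑ v ∈ Finset.univ.biUnion T, R v ^ 2, fun q q' => ?_⟩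
    rw [h4, map_sum, Finset.sum_eq_zero_iff_of_nonneg (fun v _ => by
      rw [map_pow]; exact sq_nonneg _)]
    refine forall₂_congr fun v hv => ?_
    rw [map_pow, pow_eq_zero_iff two_ne_zero]
    have h10 := hR v ⟨d, h3 v hv⟩ q q'
    unfold pt at h10
    rw [h10, sub_eq_zero]
  · by_cases h : ∀ t : ℤ, V (D i (a + t • b)) = V (D j (a' + t • b'))
    · exact Or.inl h
    · right
      push Not at h
      obtain ⟨t₀, ht₀⟩ := h
      have h9 : Sep 𝒯 d (D i (a + t₀ • b)) (D j (a' + t₀ • b')) := by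
        by_contra h10
        exact ht₀ (h6 _ _ h10)
      obtain ⟨v, hv, hne⟩ := h9
      obtain ⟨R, hR, hR'⟩ := poly_pair (hD i) (hD j) hv
      have e : ∀ t : ℤ, pt (a + t • b) (a' + t • b') =
          fun l => ((Sum.elim a a' l + t * Sum.elim b b' l : ℤ) : ℚ) := by
        intro t
        funext l
        cases l <;> simp [pt]
      have h11 := line_zeros hR (Sum.elim a a') (Sum.elim b b') t₀ (by
        rw [← e, hR']
        exact sub_ne_zero.2 hne)
      have hsub : {t : ℤ | V (D i (a + t • b)) = V (D j (a' + t • b'))} ⊆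
          {t : ℤ | MvPolynomial.eval (fun l => ((Sum.elim a a' l + t * Sum.elim b b' l : ℤ) : ℚ)) R
            = 0} := by
        intro t ht
        have h12 := h5 i j _ _ ht d v hv
        show MvPolynomial.eval _ R = 0
        rw [← e, hR', h12, sub_self]
      exact ⟨h11.1.subset hsub, (Set.ncard_le_ncard hsub h11.1).trans h11.2⟩
  · by_cases h : ∀ q q', V (D i q) = V (D j q')
    · exact Or.inl h
    · right
      push Not at h
      obtain ⟨q₀, q₀', h7⟩ := h
      obtain ⟨v, hv, hne⟩ : Sep 𝒯 d (D i q₀) (D j q₀') := by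
        by_contra h10
        exact h7 (h6 _ _ h10)
      intro A B M hA hB
      obtain ⟨R, hR, hR'⟩ := poly_pair (hD i) (hD j) hv
      set R' := MvPolynomial.rename finSumFinEquiv R with hR1
      have hev : ∀ q q', MvPolynomial.eval
          (fun l => ((Fin.append q q' : Fin (k i + k j) → ℤ) l : ℚ)) R' =
          v (D i q) - v (D j q') := by
        intro q q'
        rw [hR1, MvPolynomial.eval_rename, ← hR' q q']
        congr 2
        funext l
        cases l with
        | inl l => simp [pt]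
        | inr l => simp [pt]
      have hR0 : R' ≠ 0 := by
        intro h0
        have := hev q₀ q₀'
        rw [h0, map_zero] at this
        exact hne (sub_eq_zero.1 this.symm)
      have hn' : R'.totalDegree ≤ d := (MvPolynomial.totalDegree_rename_le _ _).trans hR
      have h1 := count_zeros hR0 hn' (Fin.append A B) M (fun l => by
        refine Fin.addCases (fun l => ?_) (fun l => ?_) l
        · rw [Fin.append_left]; exact hA l
        · rw [Fin.append_right]; exact hB l)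
      have e : ∏ l, (Fin.append A B l).card = (∏ l, (A l).card) * ∏ l, (B l).card := by
        rw [Fin.prod_univ_add]
        simp
      rw [e] at h1
      refine le_trans (Nat.mul_le_mul_left _ ?_) h1
      refine Finset.card_le_card_of_injOn (fun z => Fin.append z.1 z.2) (fun z hz => ?_)
        (fun z _ z' _ h => ?_)
      · obtain ⟨h2, h3⟩ := Finset.mem_filter.1 (Finset.mem_coe.1 hz)
        obtain ⟨h4, h5'⟩ := Finset.mem_product.1 h2
        refine Finset.mem_coe.2 (Finset.mem_filter.2 ⟨Fintype.mem_piFinset.2 fun l => ?_, ?_⟩)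
        · refine Fin.addCases (fun l => ?_) (fun l => ?_) l
          · show Fin.append z.1 z.2 (Fin.castAdd (k j) l) ∈ _
            rw [Fin.append_left, Fin.append_left]; exact Fintype.mem_piFinset.1 h4 l
          · show Fin.append z.1 z.2 (Fin.natAdd (k i) l) ∈ _
            rw [Fin.append_right, Fin.append_right]; exact Fintype.mem_piFinset.1 h5' l
        · rw [hev, h5 i j _ _ h3 d v hv, sub_self]
      · have h2 : ∀ l, z.1 l = z'.1 l := fun l => by
          have := congrFun h (Fin.castAdd (k j) l)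
          simpa using this
        have h3 : ∀ l, z.2 l = z'.2 l := fun l => by
          have := congrFun h (Fin.natAdd (k i) l)
          simpa using this
        exact Prod.ext (funext h2) (funext h3)

end

end Pool.Agent.N518.TG
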