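import Pool.Agent.N518.TG.Poly
import Pool.Agent.N518.TG.Theory
import Pool.Agent.N518.TG.Defs

/-!
# Finite type invariants of homology spheres along products of powers
-/

set_option autoImplicit false

namespace Pool.Agent.N518.TG

open Pool.Agent.Y466.FT (PD Dg)

/-! ### The Torelli group is normal -/

/-- The Torelli group as a subgroup of the mapping class group. -/
def TT (g : ℕ) : Subgroup (Mod g) := (Torelli g).subgroupOf (Mod g)

theorem mem_TT {g : ℕ} {φ : Mod g} : φ ∈ TT g ↔ φ.1 ∈ Torelli g := Iff.rfl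

instance normal_TT (g : ℕ) : (TT g).Normal := by
  refine ⟨fun τ hτ φ => ?_⟩
  rw [mem_TT] at hτ ⊢
  refine ⟨(φ * τ * φ⁻¹).2, fun z => ?_⟩
  have h1 := hτ.2 (φ.1⁻¹ z)
  have h2 : φ.1 (τ.1 (φ.1⁻¹ z) * (φ.1⁻¹ z)⁻¹) ∈ commutator (Surf g) := by
    have h3 : (commutator (Surf g)).map φ.1.toMonoidHom = commutator (Surf g) :=
      Subgroup.characteristic_iff_map_eq.1 inferInstance φ.1
    rw [← h3]
    exact Subgroup.mem_map_of_mem φ.1.toMonoidHom h1
  have e : ((φ * τ * φ⁻¹ : Mod g) : MulAut (Surf g)) z * z⁻¹ =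
      φ.1 (τ.1 (φ.1⁻¹ z) * (φ.1⁻¹ z)⁻¹) := by
    rw [map_mul, map_inv]
    have h4 : φ.1 (φ.1⁻¹ z) = z := by simp
    rw [h4]
    rfl
  rw [e]
  exact h2

/-! ### Finite type invariants -/

open Classical in
/-- The function on the mapping class group given by an invariant. -/
noncomputable def fn {A : Type} [AddCommGroup A] (g : ℕ) (v : Heegaard → A) : Mod g → A :=
  fun φ => if φ ∈ TT g then v ⟨g, φ.1⟩ else 0

theorem coe_ofFn {g m : ℕ} (F : Fin m → Mod g) :
    (((List.ofFn F).prod : Mod g) : MulAut (Surf g)) = (List.ofFn fun i => (F i).1).prod := by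
  rw [← Subgroup.coe_subtype, map_list_prod, List.map_ofFn]
  rfl

theorem prod_mem {H : Type} [Group H] (T : Subgroup H) {m : ℕ} {ψ : Fin m → H}
    (hψ : ∀ i, ψ i ∈ T) (s : Fin m → Bool) :
    (List.ofFn fun i => if s i then ψ i else 1).prod ∈ T := by
  refine T.list_prod_mem fun x hx => ?_
  obtain ⟨i, rfl⟩ := (List.mem_ofFn' _ _).1 hx
  dsimp only
  split_ifs
  · exact hψ i
  · exact one_mem T

theorem expl_fn {A : Type} [AddCommGroup A] {n : ℕ} {v : Heegaard → A} (h : FiniteType n v)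
    (g : ℕ) : Expl (TT g) (n + 1) (fn g v) := by
  intro φ ψ hψ
  by_cases hφ : φ ∈ TT g
  · have h1 := h g φ.1 (fun i => (ψ i).1) hφ hψ
    rw [← h1]
    refine Finset.sum_congr rfl fun s _ => ?_
    congr 1
    unfold fn
    rw [if_pos (mul_mem hφ (prod_mem _ hψ s)), Subgroup.coe_mul, coe_ofFn]
    congr 5
    funext i
    split_ifs <;> rfl
  · refine Finset.sum_eq_zero fun s _ => ?_
    unfold fn
    rw [if_neg fun h1 => hφ ?_, smul_zero]
    have := mul_mem h1 (inv_mem (prod_mem _ hψ s))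
    rwa [mul_inv_cancel_right] at this

theorem FiniteType.succ {A : Type} [AddCommGroup A] {n : ℕ} {v : Heegaard → A}
    (h : FiniteType n v) : FiniteType (n + 1) v := by
  intro g φ ψ hφ hψ
  have h1 := (expl_fn h g).succ ⟨φ, hφ.1⟩ (fun i => ⟨ψ i, (hψ i).1⟩) hψ
  rw [← h1]
  refine Finset.sum_congr rfl fun s _ => ?_
  congr 1
  unfold fn
  have h2 : (⟨φ, hφ.1⟩ : Mod g) ∈ TT g := hφ
  rw [if_pos (mul_mem h2 (prod_mem (TT g) (ψ := fun i => ⟨ψ i, (hψ i).1⟩) hψ s)), Subgroup.coe_mul,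
    coe_ofFn]
  congr 5
  funext i
  split_ifs <;> rfl

theorem FiniteType.mono {A : Type} [AddCommGroup A] {m n : ℕ} (hmn : m ≤ n) {v : Heegaard → A}
    (h : FiniteType m v) : FiniteType n v := by
  induction hmn with
  | refl => exact h
  | step _ ih => exact ih.succ

/-- The finite type invariants of homology spheres. -/
def LMO : Theory Heegaard where
  Is := fun n v => IsInvariant v ∧ FiniteType n v
  mono := fun h hv => ⟨hv.1, hv.2.mono h⟩
  comp := by
    intro A B _ _ n v hv f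
    refine ⟨fun P Q hP hPQ => congrArg f (hv.1 P Q hP hPQ), fun g φ ψ hφ hψ => ?_⟩
    have h1 := congrArg f (hv.2 g φ ψ hφ hψ)
    rw [map_sum, map_zero] at h1
    rw [← h1]
    exact Finset.sum_congr rfl fun s _ => (map_zsmul f _ _).symm
  sum := by
    intro ι A _ n s v hv
    refine ⟨fun P Q hP hPQ => Finset.sum_congr rfl fun i hi => (hv i hi).1 P Q hP hPQ,
      fun g φ ψ hφ hψ => ?_⟩
    simp only [Finset.smul_sum]
    rw [Finset.sum_comm]
    exact Finset.sum_eq_zero fun i hi => (hv i hi).2 g φ ψ hφ hψ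

/-! ### Families -/

section
variable {g k : ℕ} {u₀ : MulAut (Surf g)} {w u : Fin k → MulAut (Surf g)}

/-- The members of a family as mapping classes. -/
def member (hu₀ : u₀ ∈ Mod g) (hw : ∀ j, w j ∈ Torelli g) (hu : ∀ j, u j ∈ Mod g)
    (q : Fin k → ℤ) : Mod g :=
  ⟨u₀, hu₀⟩ * (List.ofFn fun j => (⟨w j, (hw j).1⟩ : Mod g) ^ q j * ⟨u j, hu j⟩).prod

theorem member_coe (hu₀ : u₀ ∈ Mod g) (hw : ∀ j, w j ∈ Torelli g) (hu : ∀ j, u j ∈ Mod g)
    (q : Fin k → ℤ) : powers u₀ w u q = ⟨g, (member hu₀ hw hu q).1⟩ := by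
  unfold powers member
  rw [Subgroup.coe_mul, coe_ofFn]
  congr

theorem member_mem (hu₀ : u₀ ∈ Mod g) (hw : ∀ j, w j ∈ Torelli g) (hu : ∀ j, u j ∈ Mod g)
    (h : u₀ * (List.ofFn u).prod ∈ Torelli g) (q : Fin k → ℤ) :
    member hu₀ hw hu q ∈ TT g := by
  rw [← QuotientGroup.eq_one_iff]
  unfold member
  have h1 : ((⟨u₀, hu₀⟩ * (List.ofFn fun j => (⟨u j, hu j⟩ : Mod g)).prod : Mod g) :
      Mod g ⧸ TT g) = 1 := by
    rw [QuotientGroup.eq_one_iff, mem_TT, Subgroup.coe_mul, coe_ofFn]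
    exact h
  rw [← h1, QuotientGroup.mk_mul, QuotientGroup.mk_mul]
  congr 1
  rw [← QuotientGroup.mk'_apply, ← QuotientGroup.mk'_apply, map_list_prod, map_list_prod,
    List.map_ofFn, List.map_ofFn]
  congr 2
  funext j
  show QuotientGroup.mk' (TT g) (_ * _) = QuotientGroup.mk' (TT g) _
  rw [map_mul, map_zpow]
  have h2 : QuotientGroup.mk' (TT g) ⟨w j, (hw j).1⟩ = 1 := by
    rw [QuotientGroup.mk'_apply, QuotientGroup.eq_one_iff]
    exact hw j
  rw [h2, one_zpow, one_mul]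

theorem fam_powers (hu₀ : u₀ ∈ Mod g) (hw : ∀ j, w j ∈ Torelli g) (hu : ∀ j, u j ∈ Mod g)
    (h : u₀ * (List.ofFn u).prod ∈ Torelli g) : Fam LMO (powers u₀ w u) := by
  intro A _ n v hv
  have h1 := (expl_fn hv.2 g).dg
  have h2 := pd_prod h1 (k := k) (w := fun j => (⟨w j, (hw j).1⟩ : Mod g)) (fun j => hw j)
    (FreeAbelianGroup.of ⟨u₀, hu₀⟩) (fun j => FreeAbelianGroup.of ⟨u j, hu j⟩) (n + 1)
    (fun _ => 1) (fun _ => 0) (fun _ => KK_zero _) (by omega)
  have e : (fun q => v (powers u₀ w u q)) = fun q : Fin k → ℤ => lin (fn g v)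
      (FreeAbelianGroup.of ⟨u₀, hu₀⟩ * (List.ofFn fun j => 1 * FreeAbelianGroup.of
        ((⟨w j, (hw j).1⟩ : Mod g) ^ q j) * FreeAbelianGroup.of ⟨u j, hu j⟩).prod) := by
    funext q
    have e1 : FreeAbelianGroup.of ⟨u₀, hu₀⟩ * (List.ofFn fun j => 1 * FreeAbelianGroup.of
        ((⟨w j, (hw j).1⟩ : Mod g) ^ q j) * FreeAbelianGroup.of ⟨u j, hu j⟩).prod =
        FreeAbelianGroup.of (member hu₀ hw hu q) := by
      unfold member
      rw [FreeAbelianGroup.of_mul]
      congr 1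
      have e2 : ∀ l : List (Mod g), (l.map FreeAbelianGroup.of).prod =
          FreeAbelianGroup.of l.prod := by
        intro l
        induction l with
        | nil => rfl
        | cons a l ih => rw [List.map_cons, List.prod_cons, List.prod_cons, ih,
            FreeAbelianGroup.of_mul]
      rw [← e2, List.map_ofFn]
      congr 2
    rw [e1, lin_of, member_coe hu₀ hw hu]
    unfold fn
    rw [if_pos (member_mem hu₀ hw hu h q)]
  rw [e]
  exact h2

end

end Pool.Agent.N518.TG
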