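import Pool.Agent.N518.TG.Main
import Pool.Agent.N518.KT.Univ

/-!
# Products of iterated commutators in Torelli groups with variable exponents
-/

set_option autoImplicit false

namespace Pool.Agent.N518.TG

open Pool.Agent.N518.KT (cm Filt Lead value expt cr)
open Pool.Agent.Y466.FT (PD Dg)

/-- The iterated commutator `[x_0 ^ e_1, [x_1 ^ e_2, ⋯ [x_{n-2} ^ e_{n-1}, x_{n-1} ^ e_n]]]`. -/
def nestS {G : Type*} [Group G] : (ℕ → G) → List ℤ → G
  | _, [] => 1
  | x, [m] => x 0 ^ m
  | x, e :: (e' :: l) => cm (x 0 ^ e) (nestS (fun i => x (i + 1)) (e' :: l))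

/-- iterated commutators in a ring -/
def ads {R : Type*} [Ring R] : (ℕ → R) → ℕ → R
  | a, 0 => a 0
  | a, n + 1 => cr (a 0) (ads (fun i => a (i + 1)) n)

/-- The product of the powers (exponent `p.1`) of the iterated commutators with the formal exponents
`p.2`, for the elements `p` of the list. -/
def prodS {G : Type*} [Group G] (x : ℕ → G) {k : ℕ} (D : List (ℤ × List (Option (Fin k))))
    (q : Fin k → ℤ) : G :=
  (D.map fun p => nestS x (p.2.map (expt q)) ^ p.1).prod

/-- The product over several sequences. -/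
def total {G : Type*} [Group G] {m : ℕ} (x : Fin m → ℕ → G) {k : ℕ}
    (D : Fin m → List (ℤ × List (Option (Fin k)))) (q : Fin k → ℤ) : G :=
  (List.ofFn fun j => prodS (x j) (D j) q).prod

theorem nestS_map {G G' : Type*} [Group G] [Group G'] (f : G →* G') (x : ℕ → G) (l : List ℤ) :
    f (nestS x l) = nestS (fun i => f (x i)) l := by
  induction l generalizing x with
  | nil => simp [nestS]
  | cons e l ih =>
    cases l with
    | nil => simp [nestS]
    | cons e' l =>
      rw [nestS, nestS, cm, cm, map_mul, map_mul, map_mul, map_inv, map_inv, map_zpow, ih]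

theorem prodS_map {G G' : Type*} [Group G] [Group G'] (f : G →* G') (x : ℕ → G) {k : ℕ}
    (D : List (ℤ × List (Option (Fin k)))) (q : Fin k → ℤ) :
    f (prodS x D q) = prodS (fun i => f (x i)) D q := by
  unfold prodS
  rw [map_list_prod, List.map_map]
  congr 1
  refine List.map_congr_left fun p _ => ?_
  simp only [Function.comp_apply, map_zpow, nestS_map]

theorem total_map {G G' : Type*} [Group G] [Group G'] (f : G →* G') {m : ℕ} (x : Fin m → ℕ → G) {k : ℕ}
    (D : Fin m → List (ℤ × List (Option (Fin k)))) (q : Fin k → ℤ) :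
    f (total x D q) = total (fun j i => f (x j i)) D q := by
  unfold total
  rw [map_list_prod, List.map_ofFn]
  congr 2
  funext j
  exact prodS_map f _ _ _

section

variable {G R : Type*} [Group G] [Ring R] {ι : G →* R} {T : ℕ → Submodule ℤ R}

theorem lead_nestS (h : Filt ι T) (l : List ℤ) : ∀ {x : ℕ → G} {a : ℕ → R}, (∀ i, Lead ι T 1 (a i) (x i)) →
    ∀ e : ℤ, Lead ι T (l.length + 1) ((e :: l).prod • ads a l.length) (nestS x (e :: l)) := by
  induction l with
  | nil =>
    intro x a ha e
    simpa [nestS, ads] using (ha 0).zpow h le_rfl e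
  | cons e' l ih =>
    intro x a ha e
    have h1 := ((ha 0).zpow h le_rfl e).comm h le_rfl (by omega) (ih (fun i => ha (i + 1)) e')
    have e1 : 1 + (l.length + 1) = (e' :: l).length + 1 := by rw [List.length_cons]; omega
    rw [e1] at h1
    refine h1.congr ?_
    rw [List.length_cons]
    show _ = _ • cr (a 0) (ads (fun i => a (i + 1)) l.length)
    unfold cr
    rw [List.prod_cons (a := e), smul_mul_smul_comm, smul_mul_smul_comm, mul_comm _ e, smul_sub]

theorem lead_prodS (h : Filt ι T) {x : ℕ → G} {a : ℕ → R} (ha : ∀ i, Lead ι T 1 (a i) (x i))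
    {n k : ℕ} (D : List (ℤ × List (Option (Fin k))))
    (hD : ∀ p ∈ D, p.2.length = n + 1) (q : Fin k → ℤ) :
    Lead ι T (n + 1) (value D q • ads a n) (prodS x D q) := by
  induction D with
  | nil => simpa [value, prodS] using Lead.one h (n + 1)
  | cons p D ih =>
    have h1 := ih fun x hx => hD x (List.mem_cons_of_mem _ hx)
    have h2 : Lead ι T (n + 1) ((p.1 * (p.2.map (expt q)).prod) • ads a n)
        (nestS x (p.2.map (expt q)) ^ p.1) := by
      have hp := hD p (List.mem_cons_self)
      obtain ⟨c, L⟩ := p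
      rcases L with _ | ⟨e, L⟩
      · simp at hp
      · have h3 := lead_nestS h (L.map (expt q)) ha (expt q e)
        rw [List.length_map] at h3
        have h4 : L.length = n := by simpa using hp
        rw [h4] at h3
        have h5 := h3.zpow h (by omega) c
        rw [smul_smul] at h5
        simpa using h5
    have h3 := h2.mul h (by omega) h1
    refine h3.congr ?_
    rw [← add_smul]
    rfl

theorem lead_total (h : Filt ι T) {m : ℕ} {x : Fin m → ℕ → G} {a : Fin m → ℕ → R}
    (ha : ∀ j i, Lead ι T 1 (a j i) (x j i)) {n k : ℕ} (D : Fin m → List (ℤ × List (Option (Fin k))))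
    (hD : ∀ j, ∀ p ∈ D j, p.2.length = n + 1) (q : Fin k → ℤ) :
    Lead ι T (n + 1) (∑ j, value (D j) q • ads (a j) n) (total x D q) := by
  unfold total
  induction m with
  | zero => simpa using Lead.one h (n + 1)
  | succ m ih =>
    rw [List.ofFn_succ, List.prod_cons, Fin.sum_univ_succ]
    exact (lead_prodS h (ha 0) (D 0) (hD 0) q).mul h (by omega)
      (ih (fun j => ha j.succ) (fun j => D j.succ) fun j => hD j.succ)

end

/-! ### The Torelli filtration -/

/-- the mapping class group in its group ring -/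
noncomputable def io (g : ℕ) : Mod g →* FreeAbelianGroup (Mod g) where
  toFun := FreeAbelianGroup.of
  map_one' := rfl
  map_mul' := FreeAbelianGroup.of_mul

/-- the powers of the augmentation ideal of the Torelli group -/
noncomputable def Tf (g : ℕ) (k : ℕ) : Submodule ℤ (FreeAbelianGroup (Mod g)) :=
  AddSubgroup.toIntSubmodule (KK (TT g) k)

theorem filt (g : ℕ) : Filt (io g) (Tf g) where
  anti k := by
    intro z hz
    exact KK_le (Nat.le_succ k) hz
  mul k l a b ha hb := KK_mul ha hb
  mem w := KK_zero _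

theorem lead_of {g : ℕ} {w : Mod g} (hw : w ∈ TT g) :
    Lead (io g) (Tf g) 1 (FreeAbelianGroup.of w - 1) w := by
  refine ⟨KK_one hw, ?_⟩
  show FreeAbelianGroup.of w - 1 - (FreeAbelianGroup.of w - 1) ∈ _
  rw [sub_self]
  exact zero_mem _

theorem val_lt {A : Type} [AddCommGroup A] {M : ℕ} {v : Heegaard → A} (hv : FiniteType M v) {g n : ℕ}
    (hM : M < n + 1) {B : FreeAbelianGroup (Mod g)} {w : Mod g} (hw : Lead (io g) (Tf g) (n + 1) B w)
    (φ : Mod g) : fn g v (φ * w) = fn g v φ := by
  have h1 : FreeAbelianGroup.of φ * (FreeAbelianGroup.of w - 1) ∈ KK (TT g) (n + 1) :=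
    (filt g).left (KK_zero _) (hw.diff (filt g))
  have h2 := lin_KK (expl_fn hv g).dg (KK_le (by omega) h1)
  rw [mul_sub, mul_one, ← FreeAbelianGroup.of_mul, map_sub, lin_of, lin_of, sub_eq_zero] at h2
  exact h2

theorem val_eq {A : Type} [AddCommGroup A] {n : ℕ} {v : Heegaard → A} (hv : FiniteType (n + 1) v) {g : ℕ}
    {B : FreeAbelianGroup (Mod g)} {w : Mod g} (hw : Lead (io g) (Tf g) (n + 1) B w)
    {φ : Mod g} (hφ : φ ∈ TT g) : fn g v (φ * w) = fn g v φ + lin (fn g v) B := by
  have h1 : FreeAbelianGroup.of φ * (FreeAbelianGroup.of w - 1 - B) ∈ KK (TT g) (n + 1 + 1) :=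
    (filt g).left (KK_zero _) hw.2
  have h2 := lin_KK (expl_fn hv g).dg h1
  have h3 : (FreeAbelianGroup.of φ - 1) * B ∈ KK (TT g) (1 + (n + 1)) := KK_mul (KK_one hφ) hw.1
  have h4 := lin_KK (expl_fn hv g).dg (KK_le (by omega : n + 1 + 1 ≤ 1 + (n + 1)) h3)
  rw [mul_sub, mul_sub, mul_one, ← FreeAbelianGroup.of_mul, map_sub, map_sub, lin_of, lin_of] at h2
  rw [sub_mul, one_mul, map_sub] at h4
  rw [← sub_eq_zero.1 h4, ← sub_eq_zero.1 (sub_eq_zero.2 (sub_eq_zero.1 h2))]
  abel

end Pool.Agent.N518.TG
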