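import Pool.Agent.Y466.FT.Newton
import Pool.Agent.Y466.FT.Abs

/-!
# Functions of finite degree on groups, and products of powers
-/

set_option autoImplicit false

namespace Pool.Agent.N518.TG

open Pool.Agent.Y466.FT

section
variable {H : Type} [Group H]

/-- The pairs `(w, 1)`, `w` in the subgroup `T`. -/
def ET (T : Subgroup H) : Set (H × H) := {e | ∃ w ∈ T, e = (w, 1)}

/-- The linear extension of a function. -/
noncomputable def lin {A : Type} [AddCommGroup A] (f : H → A) : FreeAbelianGroup H →+ A :=
  FreeAbelianGroup.lift f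

theorem lin_of {A : Type} [AddCommGroup A] (f : H → A) (h : H) :
    lin f (FreeAbelianGroup.of h) = f h := FreeAbelianGroup.lift_apply_of f h

theorem lin_mul {A : Type} [AddCommGroup A] (f : H → A) (a : H) (z : FreeAbelianGroup H) :
    lin f (FreeAbelianGroup.of a * z) = lin (fun x => f (a * x)) z := by
  induction z using FreeAbelianGroup.induction_on with
  | zero => rw [mul_zero, map_zero, map_zero]
  | of x => rw [← FreeAbelianGroup.of_mul, lin_of, lin_of]
  | neg x h => rw [mul_neg, map_neg, map_neg, h]
  | add x y hx hy => rw [mul_add, map_add, map_add, hx, hy]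

theorem lin_sub {A : Type} [AddCommGroup A] (f g : H → A) (z : FreeAbelianGroup H) :
    lin (fun x => f x - g x) z = lin f z - lin g z := by
  induction z using FreeAbelianGroup.induction_on with
  | zero => rw [map_zero, map_zero, map_zero, sub_zero]
  | of x => rw [lin_of, lin_of, lin_of]
  | neg x h => rw [map_neg, map_neg, map_neg, h]; abel
  | add x y hx hy => rw [map_add, map_add, map_add, hx, hy]; abel

/-- The product `(w₁ - 1) ⋯ (w_n - 1)`. -/
noncomputable def dprod (ws : List H) : FreeAbelianGroup H :=
  (ws.map fun w => FreeAbelianGroup.of w - 1).prod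

theorem dprod_cons (w : H) (ws : List H) :
    dprod (w :: ws) = (FreeAbelianGroup.of w - 1) * dprod ws := by
  simp [dprod]

theorem dprod_append (ws ws' : List H) : dprod (ws ++ ws') = dprod ws * dprod ws' := by
  simp [dprod]

theorem dprod_conj (ws : List H) (h : H) :
    dprod ws * FreeAbelianGroup.of h = FreeAbelianGroup.of h * dprod (ws.map fun w => h⁻¹ * w * h) := by
  induction ws with
  | nil => simp [dprod]
  | cons w ws ih =>
    rw [List.map_cons, dprod_cons, dprod_cons, mul_assoc, ih, ← mul_assoc, ← mul_assoc]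
    congr 1
    rw [sub_mul, mul_sub, ← FreeAbelianGroup.of_mul, ← FreeAbelianGroup.of_mul, one_mul, mul_one]
    congr 2
    group

variable (T : Subgroup H)

/-- The powers of the augmentation ideal. -/
def KK (n : ℕ) : AddSubgroup (FreeAbelianGroup H) :=
  AddSubgroup.closure {z | ∃ (h : H) (ws : List H), (∀ w ∈ ws, w ∈ T) ∧ ws.length = n ∧
    z = FreeAbelianGroup.of h * dprod ws}

variable {T}

theorem KK_zero (z : FreeAbelianGroup H) : z ∈ KK T 0 := by
  induction z using FreeAbelianGroup.induction_on with
  | zero => exact zero_mem _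
  | of x => exact AddSubgroup.subset_closure ⟨x, [], by simp, rfl, by simp [dprod]⟩
  | neg x h => exact neg_mem h
  | add x y hx hy => exact add_mem hx hy

theorem KK_mul [T.Normal] {m n : ℕ} {a b : FreeAbelianGroup H} (ha : a ∈ KK T m)
    (hb : b ∈ KK T n) : a * b ∈ KK T (m + n) := by
  induction ha using AddSubgroup.closure_induction with
  | mem x hx =>
    obtain ⟨h, ws, h1, h2, rfl⟩ := hx
    induction hb using AddSubgroup.closure_induction with
    | mem y hy =>
      obtain ⟨h', ws', h1', h2', rfl⟩ := hy
      refine AddSubgroup.subset_closure ⟨h * h', (ws.map fun w => h'⁻¹ * w * h') ++ ws', ?_, ?_, ?_⟩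
      · intro w hw
        rcases List.mem_append.1 hw with hw | hw
        · obtain ⟨v, hv, rfl⟩ := List.mem_map.1 hw
          have := ‹T.Normal›.conj_mem v (h1 v hv) h'⁻¹
          rwa [inv_inv] at this
        · exact h1' w hw
      · simp [h2, h2']
      · rw [dprod_append, FreeAbelianGroup.of_mul, ← mul_assoc, mul_assoc (FreeAbelianGroup.of h),
          dprod_conj, mul_assoc, mul_assoc, mul_assoc]
    | zero => rw [mul_zero]; exact zero_mem _
    | add y z _ _ hy hz => rw [mul_add]; exact add_mem hy hz
    | neg y _ hy => rw [mul_neg]; exact neg_mem hy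
  | zero => rw [zero_mul]; exact zero_mem _
  | add y z _ _ hy hz => rw [add_mul]; exact add_mem hy hz
  | neg y _ hy => rw [neg_mul]; exact neg_mem hy

theorem KK_one {w : H} (hw : w ∈ T) : (FreeAbelianGroup.of w - 1 : FreeAbelianGroup H) ∈ KK T 1 :=
  AddSubgroup.subset_closure ⟨1, [w], by simpa using hw, rfl, by
    rw [show (FreeAbelianGroup.of (1 : H)) = 1 from rfl]; simp [dprod]⟩

theorem KK_le {m n : ℕ} (h : n ≤ m) : KK T m ≤ KK T n := by
  refine (AddSubgroup.closure_le _).2 ?_
  rintro z ⟨h', ws, h1, h2, rfl⟩
  have e : ws = ws.take (m - n) ++ ws.drop (m - n) := (List.take_append_drop _ _).symm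
  have h3 : ∀ z' ∈ KK T n, ∀ l : List H, z' * 1 ∈ KK T n := fun z' hz' _ => by
    rwa [mul_one]
  -- the last `n` factors
  rw [e, dprod_append, ← mul_assoc]
  have h4 : ∀ z' : FreeAbelianGroup H, z' * dprod (ws.drop (m - n)) ∈ KK T n := by
    intro z'
    induction z' using FreeAbelianGroup.induction_on with
    | zero => rw [zero_mul]; exact zero_mem _
    | of x =>
      exact AddSubgroup.subset_closure ⟨x, ws.drop (m - n),
        fun w hw => h1 w (List.mem_of_mem_drop hw), by rw [List.length_drop, h2]; omega, rfl⟩
    | neg x h => rw [neg_mul]; exact neg_mem h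
    | add x y hx hy => rw [add_mul]; exact add_mem hx hy
  exact h4 _

theorem KK_prod [T.Normal] {k : ℕ} (c : Fin k → FreeAbelianGroup H) (m : Fin k → ℕ)
    (hc : ∀ j, c j ∈ KK T (m j)) : (List.ofFn c).prod ∈ KK T (∑ j, m j) := by
  induction k with
  | zero => exact KK_zero _
  | succ k ih =>
    rw [List.ofFn_succ, List.prod_cons, Fin.sum_univ_succ]
    exact KK_mul (hc 0) (ih _ _ fun j => hc j.succ)

/-- A function of degree less than `n` vanishes on the `n`-th power. -/
theorem lin_KK {A : Type} [AddCommGroup A] {n : ℕ} {f : H → A} (hf : Dg (ET T) n f)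
    {z : FreeAbelianGroup H} (hz : z ∈ KK T n) : lin f z = 0 := by
  have key : ∀ (ws : List H), (∀ w ∈ ws, w ∈ T) → ∀ (f : H → A), Dg (ET T) ws.length f →
      ∀ (h : H), lin f (FreeAbelianGroup.of h * dprod ws) = 0 := by
    intro ws
    induction ws with
    | nil =>
      intro _ f hf h
      have e : f = fun _ => 0 := funext hf
      rw [show dprod ([] : List H) = 1 by simp [dprod], mul_one, lin_of, e]
    | cons w ws ih =>
      intro hws f hf h
      have h1 := hf (w, 1) ⟨w, hws w List.mem_cons_self, rfl⟩ h
      have h2 := ih (fun x hx => hws x (List.mem_cons_of_mem _ hx)) _ h1 1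
      have e1 : (FreeAbelianGroup.of (1 : H)) = 1 := rfl
      rw [e1, one_mul, lin_sub (fun p => f (h * w * p)) (fun p => f (h * 1 * p)), ← lin_mul,
        ← lin_mul, ← map_sub, ← sub_mul, FreeAbelianGroup.of_mul, mul_one] at h2
      rw [dprod_cons, ← mul_assoc, mul_sub, mul_one]
      exact h2
  induction hz using AddSubgroup.closure_induction with
  | mem x hx =>
    obtain ⟨h, ws, h1, h2, rfl⟩ := hx
    exact key ws h1 f (h2 ▸ hf) h
  | zero => exact map_zero _
  | add y z _ _ hy hz => rw [map_add, hy, hz, add_zero]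
  | neg y _ hy => rw [map_neg, hy, neg_zero]

/-- **Products of powers.** -/
theorem pd_prod [T.Normal] {A : Type} [AddCommGroup A] {N : ℕ} {f : H → A} (hf : Dg (ET T) N f)
    {k : ℕ} {w : Fin k → H} (hw : ∀ j, w j ∈ T) (z : FreeAbelianGroup H)
    (d : Fin k → FreeAbelianGroup H) (n : ℕ) :
    ∀ (c : Fin k → FreeAbelianGroup H) (m : Fin k → ℕ), (∀ j, c j ∈ KK T (m j)) →
      N ≤ n + ∑ j, m j →
      PD n (fun q : Fin k → ℤ => lin f (z * (List.ofFn fun j =>
        c j * FreeAbelianGroup.of (w j ^ q j) * d j).prod)) := by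
  induction n with
  | zero =>
    intro c m hc hN q
    refine lin_KK hf (KK_le (by omega) (m := ∑ j, m j) ?_)
    have h1 : (List.ofFn fun j => c j * FreeAbelianGroup.of (w j ^ q j) * d j).prod ∈
        KK T (∑ j, m j) := KK_prod _ _ fun j => by
      have := KK_mul (KK_mul (hc j) (KK_zero (T := T) (FreeAbelianGroup.of (w j ^ q j))))
        (KK_zero (T := T) (d j))
      rwa [add_zero, add_zero] at this
    have := KK_mul (KK_zero (T := T) z) h1
    rwa [zero_add] at this
  | succ n ih =>
    intro c m hc hN j
    set c' : Fin k → FreeAbelianGroup H :=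
      Function.update c j (c j * (FreeAbelianGroup.of (w j) - 1)) with hc'
    set m' : Fin k → ℕ := Function.update m j (m j + 1) with hm'
    have h1 : ∀ i, c' i ∈ KK T (m' i) := by
      intro i
      by_cases h : i = j
      · subst h
        rw [hc', hm', Function.update_self, Function.update_self]
        exact KK_mul (hc i) (KK_one (hw i))
      · rw [hc', hm', Function.update_of_ne h, Function.update_of_ne h]
        exact hc i
    have h2 : ∑ i, m' i = ∑ i, m i + 1 := by
      rw [hm', Finset.sum_update_of_mem (Finset.mem_univ j),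
        ← Finset.add_sum_erase _ _ (Finset.mem_univ j), Finset.sdiff_singleton_eq_erase]
      ring
    have h3 := ih c' m' h1 (by rw [h2]; omega)
    have e : dl j (fun q : Fin k → ℤ => lin f (z * (List.ofFn fun j =>
        c j * FreeAbelianGroup.of (w j ^ q j) * d j).prod)) =
        fun q : Fin k → ℤ => lin f (z * (List.ofFn fun j =>
          c' j * FreeAbelianGroup.of (w j ^ q j) * d j).prod) := by
      funext q
      show lin f _ - lin f _ = lin f _
      rw [← map_sub, ← mul_sub]
      congr 2
      set L := MultilinearMap.mkPiAlgebraFin ℤ k (FreeAbelianGroup H)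
      set g : Fin k → FreeAbelianGroup H := fun i => c i * FreeAbelianGroup.of (w i ^ q i) * d i
        with hg
      have e1 : (fun i => c i * FreeAbelianGroup.of (w i ^ (q + Pi.single j 1 : Fin k → ℤ) i) * d i)
          = Function.update g j (c j * FreeAbelianGroup.of (w j ^ (q j + 1)) * d j) := by
        funext i
        by_cases h : i = j
        · subst h; simp
        · rw [Function.update_of_ne h]; simp [hg, h]
      have e2 : (fun i => c' i * FreeAbelianGroup.of (w i ^ q i) * d i) =
          Function.update g j (c j * (FreeAbelianGroup.of (w j) - 1) *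
            FreeAbelianGroup.of (w j ^ q j) * d j) := by
        funext i
        by_cases h : i = j
        · subst h; simp [hc']
        · rw [Function.update_of_ne h, hc', Function.update_of_ne h]
      have e3 : Function.update g j (c j * FreeAbelianGroup.of (w j ^ q j) * d j) = g :=
        Function.update_eq_self j g
      have e4 : (List.ofFn g).prod =
          L (Function.update g j (c j * FreeAbelianGroup.of (w j ^ q j) * d j)) := by
        rw [MultilinearMap.mkPiAlgebraFin_apply, e3]
      rw [e1, e2, e4, ← MultilinearMap.mkPiAlgebraFin_apply (R := ℤ),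
        ← MultilinearMap.mkPiAlgebraFin_apply (R := ℤ), ← MultilinearMap.map_update_sub]
      congr 2
      rw [← sub_mul]
      congr 1
      rw [mul_assoc, ← mul_sub, sub_mul, one_mul, ← FreeAbelianGroup.of_mul, zpow_add, zpow_one,
        (Commute.refl (w j)).zpow_right (q j) |>.eq]
    rw [e]
    exact h3

/-- All alternating sums with `m` elements of `T` vanish. -/
def Expl (T : Subgroup H) {A : Type} [AddCommGroup A] (m : ℕ) (f : H → A) : Prop :=
  ∀ (φ : H) (ψ : Fin m → H), (∀ i, ψ i ∈ T) →
    ∑ s : Fin m → Bool, (∏ i, if s i then (-1 : ℤ) else 1) •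
      f (φ * (List.ofFn fun i => if s i then ψ i else 1).prod) = 0

theorem sum_cons {B : Type} [AddCommGroup B] {m : ℕ} (F : (Fin (m + 1) → Bool) → B) :
    ∑ s : Fin (m + 1) → Bool, F s =
      ∑ s : Fin m → Bool, F (Fin.cons true s) + ∑ s : Fin m → Bool, F (Fin.cons false s) := by
  rw [← (Fin.consEquiv fun _ : Fin (m + 1) => Bool).sum_comp F, Fintype.sum_prod_type,
    Fintype.sum_bool]
  rfl

theorem expl_term {A : Type} [AddCommGroup A] {m : ℕ} (f : H → A) (φ w : H) (ψ : Fin m → H)
    (b : Bool) (s : Fin m → Bool) :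
    (∏ i, if (Fin.cons b s : Fin (m + 1) → Bool) i then (-1 : ℤ) else 1) •
      f (φ * (List.ofFn fun i => if (Fin.cons b s : Fin (m + 1) → Bool) i then
        (Fin.cons w ψ : Fin (m + 1) → H) i else 1).prod) =
    (if b then (-1 : ℤ) else 1) • (∏ i, if s i then (-1 : ℤ) else 1) •
      f (φ * (if b then w else 1) * (List.ofFn fun i => if s i then ψ i else 1).prod) := by
  rw [Fin.prod_univ_succ, List.ofFn_succ, List.prod_cons, mul_smul, mul_assoc]
  simp only [Fin.cons_zero, Fin.cons_succ]

theorem Expl.succ {A : Type} [AddCommGroup A] {m : ℕ} {f : H → A} (h : Expl T m f) :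
    Expl T (m + 1) f := by
  intro φ ψ hψ
  rw [sum_cons]
  have e : ψ = Fin.cons (ψ 0) (fun i => ψ i.succ) := (Fin.cons_self_tail ψ).symm
  have h1 := h (φ * ψ 0) (fun i => ψ i.succ) fun i => hψ i.succ
  have h2 := h φ (fun i => ψ i.succ) fun i => hψ i.succ
  rw [e]
  simp only [expl_term]
  simp only [if_true, Bool.false_eq_true, if_false, one_smul, mul_one, neg_smul, Finset.sum_neg_distrib]
  rw [h1, h2]
  simp

theorem Expl.dg [T.Normal] {A : Type} [AddCommGroup A] {m : ℕ} {f : H → A} (h : Expl T m f) :
    Dg (ET T) m f := by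
  induction m generalizing f with
  | zero =>
    intro p
    have := h p Fin.elim0 (fun i => i.elim0)
    simpa using this
  | succ m ih =>
    rintro _ ⟨w, hw, rfl⟩ a
    refine ih fun φ ψ hψ => ?_
    have hw' : φ⁻¹ * w * φ ∈ T := by
      have := ‹T.Normal›.conj_mem w hw φ⁻¹
      rwa [inv_inv] at this
    have h1 := h (a * φ) (Fin.cons (φ⁻¹ * w * φ) ψ) (by
      intro i
      refine Fin.cases hw' (fun i => ?_) i
      exact hψ i)
    rw [sum_cons] at h1
    simp only [expl_term] at h1
    simp only [if_true, Bool.false_eq_true, if_false, one_smul, mul_one, neg_smul,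
      Finset.sum_neg_distrib] at h1
    have e1 : ∀ z : H, a * φ * (φ⁻¹ * w * φ) * z = a * w * (φ * z) := fun z => by group
    have e2 : ∀ z : H, a * φ * z = a * 1 * (φ * z) := fun z => by group
    simp only [e1] at h1
    simp only [e2] at h1
    simp only [smul_sub, Finset.sum_sub_distrib]
    rw [← neg_eq_zero, neg_sub, ← h1]
    abel

end

end Pool.Agent.N518.TG
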