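import Pool.Agent.N518.TG.Main
import Pool.Agent.Y466.RW.Unknot

/-!
# Random walks on Torelli groups
-/

set_option autoImplicit false

namespace Pool.Agent.N518.TG

open Pool.Agent.Y466.FT (Dg PD) 
open Pool.Agent.Y466.RW

open Finset Filter Topology

/-- Families indexed by words on which all invariants have finite degree. -/
def WFam {X L : Type} (𝒯 : Theory X) (D : FreeMonoid L → X) : Prop :=
  ∀ {A : Type} [AddCommGroup A] (n : ℕ) (v : X → A), 𝒯.Is n v →
    Dg (LE L) (n + 1) (fun w => v (D w))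

section
variable {X : Type} {𝒯 : Theory X} {L L' : Type} [Fintype L] [DecidableEq L] [Fintype L']
  [DecidableEq L'] {D : FreeMonoid L → X} {D' : FreeMonoid L' → X}

/-- No value is taken too often. -/
theorem value (hD : WFam 𝒯 D) {A : Type} [AddCommGroup A] [DecidableEq A]
    (htf : Pool.Agent.N518.VL.TorsionFree A) {n : ℕ} {v : X → A}
    (hn : 𝒯.Is n v) {w₀ w₁ : FreeMonoid L} (h₀ : v (D w₀) ≠ v (D w₁)) (N : ℕ) (c : A) :
    (#{w : Fin N → Option L | v (D (ev w)) = c} : ℝ) ≤
      bb (Fintype.card (Option L)) n N * (Fintype.card (Option L) : ℝ) ^ N := by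
  obtain ⟨w, hw⟩ : ∃ w, v (D w) ≠ v (D 1) := by
    by_contra hcon
    push Not at hcon
    exact h₀ (by rw [hcon, hcon w₁])
  have := poly_count n htf (fun w => v (D w)) (hD n v hn) w hw N c
  convert this

open Classical in
theorem pair_count (hD : WFam 𝒯 D) (hD' : WFam 𝒯 D') {n : ℕ} {w₀ : FreeMonoid L}
    {w₀' : FreeMonoid L'} (h : Sep 𝒯 n (D w₀) (D' w₀')) (N N' : ℕ) :
    (#{z : (Fin N → Option L) × (Fin N' → Option L') |
      ¬ Sep 𝒯 n (D (ev z.1)) (D' (ev z.2))} : ℝ) ≤
      (bb (Fintype.card (Option L)) n N + bb (Fintype.card (Option L')) n N') *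
      ((Fintype.card (Option L) : ℝ) ^ N * (Fintype.card (Option L') : ℝ) ^ N') := by
  obtain ⟨v, hn, hne⟩ := h
  have hX : (0 : ℝ) < Fintype.card (Option L) := by exact_mod_cast Fintype.card_pos
  have hX' : (0 : ℝ) < Fintype.card (Option L') := by exact_mod_cast Fintype.card_pos
  have h0 : (#{z : (Fin N → Option L) × (Fin N' → Option L') |
      ¬ Sep 𝒯 n (D (ev z.1)) (D' (ev z.2))} : ℝ) ≤
      #{z : (Fin N → Option L) × (Fin N' → Option L') | v (D (ev z.1)) = v (D' (ev z.2))} := by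
    have := card_le_card (s := univ.filter fun z : (Fin N → Option L) × (Fin N' → Option L') =>
      ¬ Sep 𝒯 n (D (ev z.1)) (D' (ev z.2))) (t := univ.filter fun z :
        (Fin N → Option L) × (Fin N' → Option L') => v (D (ev z.1)) = v (D' (ev z.2)))
      (fun z hz => by
        rw [mem_filter] at hz ⊢
        refine ⟨hz.1, ?_⟩
        by_contra hcon
        exact hz.2 ⟨v, hn, hcon⟩)
    exact_mod_cast this
  refine h0.trans ?_
  have hb := bb_nonneg hX.le n N
  have hb' := bb_nonneg hX'.le n N'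
  by_cases hc : ∃ w₁, v (D w₁) ≠ v (D w₀)
  · obtain ⟨w₁, hw₁⟩ := hc
    have e1 : ((#{z : (Fin N → Option L) × (Fin N' → Option L') |
        v (D (ev z.1)) = v (D' (ev z.2))} : ℕ) : ℝ) =
        ∑ z' : Fin N' → Option L', ((#{z : Fin N → Option L |
          v (D (ev z)) = v (D' (ev z'))} : ℕ) : ℝ) := by
      rw [card_filter, Fintype.sum_prod_type, sum_comm]
      push_cast
      refine sum_congr rfl fun z _ => ?_
      rw [card_filter]
      push_cast
      rfl
    rw [e1]
    refine (sum_le_sum fun z' _ => value hD tf_rat hn hw₁ N _).trans ?_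
    rw [sum_const, card_univ, Fintype.card_fun, Fintype.card_fin, nsmul_eq_mul]
    push_cast
    rw [add_mul]
    refine le_trans (le_of_eq ?_) (le_add_of_nonneg_right (by positivity))
    ring
  · by_cases hc' : ∃ w₁, v (D' w₁) ≠ v (D' w₀')
    · obtain ⟨w₁, hw₁⟩ := hc'
      have e1 : ((#{z : (Fin N → Option L) × (Fin N' → Option L') |
          v (D (ev z.1)) = v (D' (ev z.2))} : ℕ) : ℝ) =
          ∑ z : Fin N → Option L, ((#{z' : Fin N' → Option L' |
            v (D' (ev z')) = v (D (ev z))} : ℕ) : ℝ) := by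
        rw [card_filter, Fintype.sum_prod_type]
        push_cast
        refine sum_congr rfl fun z _ => ?_
        rw [card_filter]
        push_cast
        refine sum_congr rfl fun z' _ => ?_
        simp only [eq_comm]
      rw [e1]
      refine (sum_le_sum fun z _ => value hD' tf_rat hn hw₁ N' _).trans ?_
      rw [sum_const, card_univ, Fintype.card_fun, Fintype.card_fin, nsmul_eq_mul]
      push_cast
      rw [add_mul]
      refine le_trans (le_of_eq ?_) (le_add_of_nonneg_left (by positivity))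
      ring
    · push Not at hc hc'
      have e1 : (univ.filter fun z : (Fin N → Option L) × (Fin N' → Option L') =>
          v (D (ev z.1)) = v (D' (ev z.2))) = ∅ := by
        rw [filter_eq_empty_iff]
        intro z _ hz
        rw [hc, hc'] at hz
        exact hne hz
      rw [e1, card_empty]
      push_cast
      exact mul_nonneg (add_nonneg hb hb') (by positivity)

open Classical in
theorem one_count (hD : WFam 𝒯 D) {K : X} {n : ℕ} {w₀ : FreeMonoid L}
    (h : Sep 𝒯 n (D w₀) K) (N : ℕ) :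
    (#{w : Fin N → Option L | ¬ Sep 𝒯 n (D (ev w)) K} : ℝ) ≤
      bb (Fintype.card (Option L)) n N * (Fintype.card (Option L) : ℝ) ^ N := by
  obtain ⟨v, hn, hne⟩ := h
  have hX : (0 : ℝ) < Fintype.card (Option L) := by exact_mod_cast Fintype.card_pos
  have h0 : (#{w : Fin N → Option L | ¬ Sep 𝒯 n (D (ev w)) K} : ℝ) ≤
      #{w : Fin N → Option L | v (D (ev w)) = v K} := by
    have := card_le_card (s := univ.filter fun w : Fin N → Option L =>
      ¬ Sep 𝒯 n (D (ev w)) K) (t := univ.filter fun w : Fin N → Option L =>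
        v (D (ev w)) = v K)
      (fun z hz => by
        rw [mem_filter] at hz ⊢
        refine ⟨hz.1, ?_⟩
        by_contra hcon
        exact hz.2 ⟨v, hn, hcon⟩)
    exact_mod_cast this
  refine h0.trans ?_
  by_cases hc : ∃ w₁, v (D w₁) ≠ v (D w₀)
  · obtain ⟨w₁, hw₁⟩ := hc
    exact value hD tf_rat hn hw₁ N _
  · push Not at hc
    have e1 : (univ.filter fun w : Fin N → Option L => v (D (ev w)) = v K) = ∅ := by
      rw [filter_eq_empty_iff]
      intro z _ hz
      rw [hc] at hz
      exact hne hz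
    rw [e1, card_empty]
    push_cast
    exact mul_nonneg (bb_nonneg hX.le _ _) (by positivity)

open Classical in
theorem rigid (hD : WFam 𝒯 D) {K : X}
    (h : ∃ δ : ℝ, 0 < δ ∧ ∀ N₀ : ℕ, ∃ N ≥ N₀, δ * (Fintype.card (Option L) : ℝ) ^ N ≤
      #{w : Fin N → Option L | ∀ n, ¬ Sep 𝒯 n (D (ev w)) K}) (w : FreeMonoid L) (n : ℕ) :
    ¬ Sep 𝒯 n (D w) K := by
  intro hs
  obtain ⟨δ, hδ, h⟩ := h
  have hX : (0 : ℝ) < Fintype.card (Option L) := by exact_mod_cast Fintype.card_pos
  have h1 := (bb_tendsto (Fintype.card (Option L)) n).eventually (gt_mem_nhds hδ)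
  obtain ⟨N₀, hN₀⟩ := eventually_atTop.1 h1
  obtain ⟨N, hN, hc⟩ := h N₀
  have h2 := one_count hD hs N
  have h3 : (#{w : Fin N → Option L | ∀ n, ¬ Sep 𝒯 n (D (ev w)) K} : ℝ) ≤
      #{w : Fin N → Option L | ¬ Sep 𝒯 n (D (ev w)) K} := by
    have := card_le_card (s := univ.filter fun w : Fin N → Option L =>
      ∀ n, ¬ Sep 𝒯 n (D (ev w)) K) (t := univ.filter fun w : Fin N → Option L =>
        ¬ Sep 𝒯 n (D (ev w)) K)
      (fun z hz => by
        rw [mem_filter] at hz ⊢
        exact ⟨hz.1, hz.2 n⟩)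
    exact_mod_cast this
  have h4 : δ * (Fintype.card (Option L) : ℝ) ^ N ≤
    bb (Fintype.card (Option L)) n N * (Fintype.card (Option L) : ℝ) ^ N := (hc.trans h3).trans h2
  have h5 := le_of_mul_le_mul_right h4 (by positivity)
  exact absurd (hN₀ N hN) (not_lt.2 h5)

omit [Fintype L] [DecidableEq L] [Fintype L'] [DecidableEq L'] in
theorem test_one (hD : WFam 𝒯 D) {A : Type} [AddCommGroup A] {n : ℕ} {v : X → A}
    (hn : 𝒯.Is n v) (c : A) (h : ∀ w : Fin n → Option L, v (D (ev w)) = c) (w : FreeMonoid L) :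
    v (D w) = c := by
  have h1 := hD n v hn
  have h2 : Dg (LE L) (n + 1) (fun _ => c) := by
    rintro e ⟨s, rfl⟩ a
    simp only [sub_self]
    exact Dg.zero n
  have h3 := dg_short (h1.sub h2) (fun w hw => by
    obtain ⟨z, rfl⟩ := exists_ev (n := n) w (Nat.lt_succ_iff.1 hw)
    rw [h z, sub_self]) w
  exact sub_eq_zero.1 h3

omit [Fintype L] [DecidableEq L] [Fintype L'] [DecidableEq L'] in
theorem test_pair (hD : WFam 𝒯 D) (hD' : WFam 𝒯 D') {A : Type} [AddCommGroup A] {n : ℕ}
    {v : X → A} (hn : 𝒯.Is n v)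
    (h : ∀ (w : Fin n → Option L) (w' : Fin n → Option L'), v (D (ev w)) = v (D' (ev w')))
    (w : FreeMonoid L) (w' : FreeMonoid L') : v (D w) = v (D' w') := by
  obtain ⟨z, hz⟩ := exists_ev (L := L) (n := n) 1 (Nat.zero_le _)
  obtain ⟨z', hz'⟩ := exists_ev (L := L') (n := n) 1 (Nat.zero_le _)
  have h1 := test_one hD hn (v (D' (ev z'))) (fun y => h y z') w
  have h2 := test_one hD' hn (v (D (ev z))) (fun y => (h z y).symm) w'
  rw [h1, h2, ← h z z']

end

/-! ### Torelli groups -/

theorem dg_hom {H : Type} [Group H] {T : Subgroup H} {A : Type} [AddCommGroup A] {L : Type}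
    (X : FreeMonoid L →* H) (hX : ∀ s, X (FreeMonoid.of s) ∈ T) {m : ℕ} {f : H → A}
    (hf : Dg (ET T) m f) : Dg (LE L) m (fun w => f (X w)) := by
  induction m generalizing f with
  | zero => intro w; exact hf _
  | succ m ih =>
    rintro _ ⟨s, rfl⟩ a
    have h1 := ih (hf _ ⟨X (FreeMonoid.of s), hX s, rfl⟩ (X a))
    refine h1.congr fun w => ?_
    simp only [map_mul, map_one]

/-- `M(φ x_{w_1} ⋯ x_{w_N})` for a word `w` of length `N` in the letters of `L` and the empty letter
`none`. -/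
def walk {g : ℕ} {L : Type} (φ : MulAut (Surf g)) (x : L → MulAut (Surf g)) {N : ℕ}
    (w : Fin N → Option L) : Heegaard :=
  ⟨g, φ * (List.ofFn fun j => (w j).elim 1 x).prod⟩

section
variable {g : ℕ} {L : Type} {φ : MulAut (Surf g)} {x : L → MulAut (Surf g)}

/-- The homomorphism. -/
def hom (hx : ∀ s, x s ∈ Torelli g) : FreeMonoid L →* Mod g :=
  FreeMonoid.lift fun s => ⟨x s, (hx s).1⟩

theorem hom_mem (hx : ∀ s, x s ∈ Torelli g) (w : FreeMonoid L) : hom hx w ∈ TT g := by
  induction w using FreeMonoid.recOn with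
  | one => rw [map_one]; exact one_mem _
  | of_mul s w ih =>
    rw [map_mul]
    refine mul_mem ?_ ih
    unfold hom
    rw [FreeMonoid.lift_eval_of]
    exact hx s

/-- The manifold of a word. -/
def wd (hφ : φ ∈ Torelli g) (hx : ∀ s, x s ∈ Torelli g) (w : FreeMonoid L) : Heegaard :=
  ⟨g, ((⟨φ, hφ.1⟩ : Mod g) * hom hx w).1⟩

theorem walk_eq (hφ : φ ∈ Torelli g) (hx : ∀ s, x s ∈ Torelli g) {N : ℕ}
    (w : Fin N → Option L) : walk φ x w = wd hφ hx (ev w) := by
  unfold walk wd ev
  rw [Subgroup.coe_mul, map_list_prod, List.map_map, List.map_ofFn, coe_ofFn]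
  congr 4
  funext i
  show (w i).elim 1 x = (hom hx ((w i).elim 1 FreeMonoid.of)).1
  cases h : w i with
  | none => simp
  | some s =>
    simp only [Option.elim]
    unfold hom
    rw [FreeMonoid.lift_eval_of]

theorem wfam_wd (hφ : φ ∈ Torelli g) (hx : ∀ s, x s ∈ Torelli g) : WFam LMO (wd hφ hx) := by
  intro A _ n v hv
  have h1 := ((expl_fn hv.2 g).dg).trans (⟨φ, hφ.1⟩ : Mod g)
  have h2 := dg_hom (hom hx) (T := TT g) (fun s => hom_mem hx _) h1
  refine h2.congr fun w => ?_
  unfold fn wd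
  rw [if_pos (mul_mem (show (⟨φ, hφ.1⟩ : Mod g) ∈ TT g from hφ) (hom_mem hx w))]

end

end Pool.Agent.N518.TG
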